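import Pool.Agent.Helper25.FreePDefs
import Pool.Agent.Helper25.FreePMain
import Pool.Agent.Helper25.FreePExist

set_option autoImplicit false

namespace Pool.Agent.Results.MP_777e28_an.NetsLpSums

open Pool.Agent.Helper25.FreeP

universe u

/-- For every `0 < p ≤ 1`, every real normed space `X` (in particular every Banach space), every
net `N` in `X` and every base point of `N`, the Lipschitz free `p`-space over `N` is isomorphic
to its own infinite `ℓ_p`-sum.  (Such a free space exists: `exists_isLipschitzFree`.) -/
theorem result (p : ℝ) (hp : 0 < p) (_hp1 : p ≤ 1) (X : Type u) [NormedAddCommGroup X]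
    [NormedSpace ℝ X] (N : Set X) (hN : IsNet N) (o : N) (F : Type u) [AddCommGroup F]
    [Module ℝ F] (q : F → ℝ) (δ : N → F) (h : IsLipschitzFree p N o q δ) :
    Isomorphic q (fun w : LpSum p hp q h.banach.toIsPNorm => lpNorm p q (w : ℕ → F)) :=
  isomorphic_net hp hN h

end Pool.Agent.Results.MP_777e28_an.NetsLpSums
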